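import Pool.Agent.H95.FH.Defs

/-!
# Crew FH: part CAS
-/

open Matrix
open scoped ComplexOrder

namespace Pool.Agent.H74.FH

open H95.FG H95.FH

abbrev M3 := Matrix (Fin 3) (Fin 3) ℂ

/-- a Hermitian matrix whose cube is a nonzero scalar is scalar -/
theorem herm_cube (H : M3) (hH : H.conjTranspose = H) (c : ℂ) (hc : c ≠ 0)
    (h3 : H ^ 3 = c • (1 : M3)) : ∃ r : ℂ, H = r • (1 : M3) := by
  -- the scalar is real
  have hcr : (starRingEnd ℂ) c = c := by
    have h1 := congrArg conjTranspose h3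
    rw [conjTranspose_pow, hH, h3, conjTranspose_smul, conjTranspose_one] at h1
    have h2 := congrFun (congrFun h1 0) 0
    simp only [Matrix.smul_apply, Matrix.one_apply_eq, smul_eq_mul, mul_one] at h2
    exact h2.symm
  obtain ⟨x, rfl⟩ := Complex.conj_eq_iff_real.1 hcr
  have hx : x ≠ 0 := by
    rintro rfl
    exact hc (by simp)
  obtain ⟨r, hr⟩ : ∃ r : ℝ, r ^ 3 = x := by
    have h1 : Function.Surjective (fun y : ℝ => y ^ 3) := by
      refine Continuous.surjective (by fun_prop) ?_ ?_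
      · exact Filter.tendsto_pow_atTop (by norm_num)
      · have := Filter.tendsto_pow_atTop (α := ℝ) (n := 3) (by norm_num)
        have h2 := Filter.tendsto_neg_atTop_atBot.comp (this.comp Filter.tendsto_neg_atBot_atTop)
        refine h2.congr fun y => ?_
        simp only [Function.comp_apply]
        ring
    exact h1 x
  have hr0 : r ≠ 0 := by
    rintro rfl
    apply hx
    rw [← hr]
    norm_num
  set G : M3 := H + ((r / 2 : ℝ) : ℂ) • (1 : M3) with hG
  have hGH : G.conjTranspose = G := by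
    rw [hG, conjTranspose_add, hH, conjTranspose_smul, conjTranspose_one]
    congr 2
    exact Complex.conj_ofReal _
  have hP : (G.conjTranspose * G).PosSemidef := posSemidef_conjTranspose_mul_self G
  have hQ : (((3 * r ^ 2 / 4 : ℝ) : ℂ) • (1 : M3)).PosDef := by
    have h1 : (0 : ℝ) < 3 * r ^ 2 / 4 := by positivity
    have h2 : (1 : M3).PosDef := PosDef.one
    have h3 : (0 : ℂ) < ((3 * r ^ 2 / 4 : ℝ) : ℂ) := by exact_mod_cast h1
    exact h2.smul h3
  have hS : (G.conjTranspose * G + ((3 * r ^ 2 / 4 : ℝ) : ℂ) • (1 : M3)).PosDef :=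
    PosDef.posSemidef_add hP hQ
  have hdet := hS.det_pos.ne'
  have hunit : IsUnit (G.conjTranspose * G + ((3 * r ^ 2 / 4 : ℝ) : ℂ) • (1 : M3)) := by
    rw [Matrix.isUnit_iff_isUnit_det]
    exact isUnit_iff_ne_zero.2 hdet
  have hmul : (H - ((r : ℝ) : ℂ) • (1 : M3)) *
      (G.conjTranspose * G + ((3 * r ^ 2 / 4 : ℝ) : ℂ) • (1 : M3)) = 0 := by
    rw [hGH, hG]
    have e : (H - ((r : ℝ) : ℂ) • (1 : M3)) *
      ((H + ((r / 2 : ℝ) : ℂ) • (1 : M3)) * (H + ((r / 2 : ℝ) : ℂ) • (1 : M3)) +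
        ((3 * r ^ 2 / 4 : ℝ) : ℂ) • (1 : M3)) = H ^ 3 - ((r : ℂ) ^ 3) • (1 : M3) := by
      have e1 : (H + ((r / 2 : ℝ) : ℂ) • (1 : M3)) * (H + ((r / 2 : ℝ) : ℂ) • (1 : M3)) +
        ((3 * r ^ 2 / 4 : ℝ) : ℂ) • (1 : M3) = H * H + (r : ℂ) • H + ((r : ℂ) ^ 2) • (1 : M3) := by
        push_cast
        simp only [mul_add, add_mul, smul_mul_assoc, mul_smul_comm, one_mul, mul_one]
        module
      rw [e1, show H ^ 3 = H * H * H by rw [pow_succ, pow_two]]
      simp only [mul_add, sub_mul, smul_mul_assoc, mul_smul_comm, one_mul, mul_one,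
        ← mul_assoc]
      module
    rw [e, h3, ← hr]
    push_cast
    simp
  refine ⟨((r : ℝ) : ℂ), ?_⟩
  have h4 := hunit.mul_left_eq_zero.1 hmul
  exact sub_eq_zero.1 h4

theorem smul_cancel {a : ℂ} (ha : a ≠ 0) {M N : M3} (h : M = a • N) : N = a⁻¹ • M := by
  rw [h, smul_smul, inv_mul_cancel₀ ha, one_smul]

theorem scal_of_conj {M : M3} {a : ℂ} (h : M.conjTranspose = a • (1 : M3)) :
    ∃ b : ℂ, M = b • (1 : M3) := by
  refine ⟨star a, ?_⟩
  have h1 := congrArg conjTranspose h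
  rwa [conjTranspose_conjTranspose, conjTranspose_smul, conjTranspose_one] at h1

/-- a scalar product identity gives the inverse on the other side -/
theorem swap_mul {M N : M3} {a : ℂ} (ha : a ≠ 0) (h : M * N = a • (1 : M3)) :
    N * M = a • (1 : M3) := by
  have h1 : M * (a⁻¹ • N) = 1 := by
    rw [mul_smul_comm, h, smul_smul, inv_mul_cancel₀ ha, one_smul]
  have h2 := mul_eq_one_comm.1 h1
  rw [smul_mul_assoc] at h2
  have h3 := smul_cancel (inv_ne_zero ha) h2.symm
  rwa [inv_inv] at h3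

theorem t_CAS : S_CAS := by
  rintro M1 M2 ⟨σ, hσ⟩
  obtain ⟨a0, ha0, h0⟩ := hσ 0
  obtain ⟨a1, ha1, h1⟩ := hσ 1
  obtain ⟨a2, ha2, h2⟩ := hσ 2
  have n01 : σ 0 ≠ σ 1 := fun h => by simpa using σ.injective h
  have n02 : σ 0 ≠ σ 2 := fun h => by simpa using σ.injective h
  have n12 : σ 1 ≠ σ 2 := fun h => by simpa using σ.injective h
  simp only [Matrix.cons_val_zero, Matrix.cons_val_one, Matrix.cons_val] at h0 h1 h2
  generalize σ 0 = x0 at *
  generalize σ 1 = x1 at *
  generalize σ 2 = x2 at *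
  clear hσ
  fin_cases x0 <;> fin_cases x1 <;> fin_cases x2 <;>
    first
    | (exfalso; revert n01 n02 n12; decide)
    | skip
  all_goals simp at h0 h1 h2
  · -- 0,1,2
    exact Or.inl (scal_of_conj h0)
  · exact Or.inl (scal_of_conj h0)
  · -- σ 0 = 1, σ 1 = 0, σ 2 = 2
    refine Or.inr (Or.inr ⟨a1, a0, a0⁻¹ * a2, ha1, ha0, h1, h0, ?_⟩)
    have e := smul_cancel ha0 h0
    rw [e, smul_mul_assoc, h2, smul_smul]
  · -- σ 0 = 1, σ 1 = 2, σ 2 = 0
    left
    have e : M2 = a1⁻¹ • (M1.conjTranspose * M1) := smul_cancel ha1 h1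
    have h3 : M1 ^ 3 = (a1 * a2 * (a0 * a0)⁻¹) • (1 : M3) := by
      rw [e, mul_smul_comm, h0] at h2
      simp only [smul_mul_assoc, mul_smul_comm, smul_smul] at h2
      have h4 : (a1⁻¹ * (a0 * a0)) • (M1 ^ 3) = a2 • (1 : M3) := by
        rw [← h2]
        congr 1
        rw [pow_succ, pow_two, mul_assoc]
      have h5 : (a1⁻¹ * (a0 * a0)) ≠ 0 := mul_ne_zero (inv_ne_zero ha1) (mul_ne_zero ha0 ha0)
      rw [smul_cancel h5 h4.symm, smul_smul]
      congr 1
      field_simp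
    -- |a0| = 1
    have hM : M1 ≠ 0 := by
      rintro rfl
      have h4 := congrFun (congrFun h3 0) 0
      simp at h4
      rcases h4 with h4 | h4
      · rcases h4 with h4 | h4
        · exact ha1 h4
        · exact ha2 h4
      · exact ha0 h4
    have hn : star a0 * a0 = 1 := by
      have h4 := congrArg conjTranspose h0
      rw [conjTranspose_conjTranspose, conjTranspose_smul, h0, smul_smul] at h4
      by_contra hcon
      have h5 : (1 - star a0 * a0) • M1 = 0 := by
        rw [sub_smul, one_smul, ← h4, sub_self]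
      rcases smul_eq_zero.1 h5 with h6 | h6
      · exact hcon (sub_eq_zero.1 h6).symm
      · exact hM h6
    obtain ⟨w, hw⟩ : ∃ w : ℂ, w ^ 2 = a0 := IsAlgClosed.exists_pow_nat_eq a0 (by norm_num)
    have hwn : star w * w = 1 := by
      have h4 : (‖w‖ ^ 2) ^ 2 = 1 := by
        have h5 : star a0 * a0 = ((‖a0‖ ^ 2 : ℝ) : ℂ) := by
          have := Complex.conj_mul' a0
          simpa using this
        rw [hn] at h5
        have h6 : ‖a0‖ ^ 2 = 1 := by exact_mod_cast h5.symm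
        rw [← hw, norm_pow] at h6
        exact h6
      have h5 : ‖w‖ ^ 2 = 1 := by
        have h6 : 0 ≤ ‖w‖ ^ 2 := by positivity
        nlinarith
      have h7 := Complex.conj_mul' w
      rw [show star w = (starRingEnd ℂ) w from rfl, h7]
      exact_mod_cast h5
    have hH : (w • M1).conjTranspose = w • M1 := by
      rw [conjTranspose_smul, h0, smul_smul, ← hw]
      congr 1
      linear_combination w * hwn
    have hw0 : w ≠ 0 := by
      rintro rfl
      simp at hwn
    have hH3 : (w • M1) ^ 3 = (w ^ 3 * (a1 * a2 * (a0 * a0)⁻¹)) • (1 : M3) := by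
      rw [smul_pow, h3, smul_smul]
    have hne : w ^ 3 * (a1 * a2 * (a0 * a0)⁻¹) ≠ 0 :=
      mul_ne_zero (pow_ne_zero _ hw0) (mul_ne_zero (mul_ne_zero ha1 ha2)
        (inv_ne_zero (mul_ne_zero ha0 ha0)))
    obtain ⟨r, hr⟩ := herm_cube _ hH _ hne hH3
    refine ⟨w⁻¹ * r, ?_⟩
    rw [← smul_smul, ← hr, smul_smul, inv_mul_cancel₀ hw0, one_smul]
  · -- σ 0 = 2, σ 1 = 0, σ 2 = 1
    right
    left
    have e : M2 = a0⁻¹ • M1.conjTranspose := smul_cancel ha0 h0
    have hc : a0 * a2 ≠ 0 := mul_ne_zero ha0 ha2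
    have h3 : M1.conjTranspose * M1.conjTranspose = (a0 * a2) • M1 := by
      rw [e, mul_smul_comm] at h2
      have := smul_cancel (inv_ne_zero ha0) h2.symm
      rw [this, inv_inv, smul_smul]
    have h4 : M1.conjTranspose * (M1.conjTranspose * M1) * M1 = (a0 * a2) • M1 ^ 3 := by
      rw [← mul_assoc, mul_assoc, h3, smul_mul_assoc, pow_succ, pow_two, mul_assoc]
    refine ⟨a1, (a0 * a2)⁻¹ * (a1 * a1), a0⁻¹, ha1, inv_ne_zero ha0, h1, ?_, e⟩
    rw [h1, mul_smul_comm, mul_one, smul_mul_assoc, h1, smul_smul] at h4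
    rw [smul_cancel hc h4, smul_smul]
  · -- σ 0 = 2, σ 1 = 1, σ 2 = 0
    left
    have h3 := swap_mul ha2 h2
    -- M2 * M1ᴴ = a2
    have h4 : M1.conjTranspose * (M1 - 0) = a1 • M1 := by rw [sub_zero, h1]
    -- M1ᴴ M1 = a1 M1; M1 is invertible
    have hinv : IsUnit M1.conjTranspose := by
      refine IsUnit.of_mul_eq_one (a2⁻¹ • M2) ?_
      rw [mul_smul_comm, h2, smul_smul, inv_mul_cancel₀ ha2, one_smul]
    have hinv' : IsUnit M1 := by
      exact (Matrix.isUnit_conjTranspose _).1 hinv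
    have h5 : (M1.conjTranspose - a1 • (1 : M3)) * M1 = 0 := by
      rw [sub_mul, h1, smul_mul_assoc, one_mul, sub_self]
    have h6 := hinv'.mul_left_eq_zero.1 h5
    exact scal_of_conj (sub_eq_zero.1 h6)

end Pool.Agent.H74.FH
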