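import Pool.Agent.H95.FH.Defs
import Pool.Agent.H91.FG.Nulls

/-!
# Crew FH: parts SWAP, BAS
-/

open MvPolynomial

namespace Pool.Agent.H74.FH

open H95.FG H95.FH

theorem cj_cj {n : ℕ} (f : MvPolynomial (Fin n) ℂ) : cj (cj f) = f := by
  unfold cj
  rw [MvPolynomial.map_map]
  have : (starRingEnd ℂ).comp (starRingEnd ℂ) = RingHom.id ℂ := by
    ext x
    simp
  rw [this, MvPolynomial.map_id]

theorem eval_conj {σ : Type*} (f : MvPolynomial σ ℂ) (v : σ → ℂ) :
    eval (fun k => (starRingEnd ℂ) (v k)) (MvPolynomial.map (starRingEnd ℂ) f) =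
      (starRingEnd ℂ) (eval v f) := by
  rw [eval_map]
  show _ = (starRingEnd ℂ) (eval₂ (RingHom.id ℂ) v f)
  rw [eval₂_comp_left]
  rfl

theorem quad_ne_zero : (∑ k : Fin 3, X (Sum.inl k) * X (Sum.inr k) :
    MvPolynomial (Fin 3 ⊕ Fin 3) ℂ) ≠ 0 := by
  intro h
  have h1 := congrArg (eval (fun _ : Fin 3 ⊕ Fin 3 => (1 : ℂ))) h
  simp at h1

theorem cp_li {m : ℕ} {p : P3 m} (h : LinearIndependent ℂ p) : LinearIndependent ℂ (cp p) := by
  rw [Fintype.linearIndependent_iff] at h ⊢
  intro g hg i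
  have h1 : ∑ j, (starRingEnd ℂ) (g j) • p j = 0 := by
    have h2 := congrArg (MvPolynomial.map (starRingEnd ℂ)) hg
    rw [map_sum, map_zero] at h2
    rw [← h2]
    refine Finset.sum_congr rfl fun j _ => ?_
    rw [MvPolynomial.smul_eq_C_mul, MvPolynomial.smul_eq_C_mul, map_mul, map_C]
    congr 1
    exact (cj_cj (p j)).symm
  have h2 := h _ h1 i
  simpa using h2

theorem sys_swap {m : ℕ} {p : P3 m} {A : Q3} (h : Sys 3 m p A) : Sys 3 m (cp p) (sw A) := by
  refine ⟨cp_li h.1, ?_⟩
  have h1 := congrArg (rename (Sum.swap : Fin 3 ⊕ Fin 3 → Fin 3 ⊕ Fin 3)) h.2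
  rw [map_sum, map_mul, map_sum] at h1
  simp only [map_mul, rename_rename, rename_X, Sum.swap_inl, Sum.swap_inr] at h1
  have e1 : (Sum.swap : Fin 3 ⊕ Fin 3 → Fin 3 ⊕ Fin 3) ∘ Sum.inl = Sum.inr := rfl
  have e2 : (Sum.swap : Fin 3 ⊕ Fin 3 → Fin 3 ⊕ Fin 3) ∘ Sum.inr = Sum.inl := rfl
  rw [e1, e2] at h1
  unfold sw cp
  simp only [cj_cj]
  rw [← (by
    refine congrArg (· * rename Sum.swap A) (Finset.sum_congr rfl fun k _ => mul_comm _ _) :
      (∑ k : Fin 3, X (Sum.inr k) * X (Sum.inl k)) * rename Sum.swap A =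
      (∑ k : Fin 3, X (Sum.inl k) * X (Sum.inr k)) * rename Sum.swap A), ← h1]
  exact Finset.sum_congr rfl fun j _ => mul_comm _ _

theorem herm {m : ℕ} {p : P3 m} {A : Q3} (h : Sys 3 m p A) :
    MvPolynomial.map (starRingEnd ℂ) (sw A) = A := by
  have h1 := congrArg (MvPolynomial.map (starRingEnd ℂ)) (sys_swap h).2
  rw [map_sum, map_mul, map_sum] at h1
  simp only [map_mul, map_rename, map_X] at h1
  have h2 : (∑ k : Fin 3, X (Sum.inl k) * X (Sum.inr k) : Q3) *
      MvPolynomial.map (starRingEnd ℂ) (sw A) =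
      (∑ k : Fin 3, X (Sum.inl k) * X (Sum.inr k)) * A := by
    rw [← h1, ← h.2]
    refine Finset.sum_congr rfl fun j _ => ?_
    have e1 : MvPolynomial.map (starRingEnd ℂ) (cp p j) = p j := cj_cj (p j)
    have e2 : MvPolynomial.map (starRingEnd ℂ) (cj (cp p j)) = cj (p j) := by
      show cj (cj (cj (p j))) = _
      rw [cj_cj]
    rw [e1, e2]
  exact mul_left_cancel₀ quad_ne_zero h2

theorem sw_sw (A : Q3) : sw (sw A) = A := by
  unfold sw
  rw [rename_rename]
  have : (Sum.swap : Fin 3 ⊕ Fin 3 → Fin 3 ⊕ Fin 3) ∘ Sum.swap = id := by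
    funext x
    simp
  rw [this, rename_id]
  rfl

theorem AA_sw (A : Q3) (z Y : Fin 3 → ℂ) : AA (sw A) Y z = AA A z Y := by
  unfold AA sw
  rw [eval_rename]
  congr 2
  funext x
  rcases x with x | x <;> rfl

theorem ctx_swap {m d : ℕ} {p : P3 m} {A : Q3} (h : Ctx m d p A) : Ctx m d (cp p) (sw A) := by
  refine ⟨sys_swap h.sys, h.hm1, h.hm, fun j => (h.hom j).map _, h.hd, fun φ hφ => ?_⟩
  have h1 : IsUnit (cj φ) := by
    refine h.gcd (cj φ) fun j => ?_
    have h2 := map_dvd (MvPolynomial.map (starRingEnd ℂ)) (hφ j)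
    have e1 : MvPolynomial.map (starRingEnd ℂ) (cp p j) = p j := cj_cj (p j)
    rw [e1] at h2
    exact h2
  have h2 : IsUnit (cj (cj φ)) := h1.map (MvPolynomial.map (starRingEnd ℂ))
  rwa [cj_cj] at h2

theorem t_SWAP : S_SWAP := by
  intro m d p A h
  refine ⟨ctx_swap h, fun z Y => AA_sw A z Y, ?_, ?_, ?_, sw_sw A, ?_⟩
  · intro U z Y
    unfold dA dAY sw
    refine Finset.sum_congr rfl fun k _ => ?_
    have e : (Sum.inl k : Fin 3 ⊕ Fin 3) = Sum.swap (Sum.inr k) := rfl
    rw [e, pderiv_rename (Sum.swap_leftInverse.injective), eval_rename]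
    congr 3
    funext x
    rcases x with x | x <;> rfl
  · intro z Y
    have h1 : AA A (cv Y) (cv z) =
        eval (fun k => (starRingEnd ℂ) (Sum.elim Y z k))
          (MvPolynomial.map (starRingEnd ℂ) (sw A)) := by
      rw [herm h.sys]
      unfold AA
      congr 2
      funext x
      rcases x with x | x <;> rfl
    rw [h1, eval_conj]
    congr 1
    exact AA_sw A z Y
  · funext j
    exact cj_cj (p j)
  · intro z j
    exact eval_conj (p j) z

theorem line {σ : Type*} (A : MvPolynomial σ ℂ) (u v : σ → ℂ) :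
    ∃ g : Polynomial ℂ, ∀ t : ℂ, g.eval t = eval (fun i => u i + t * v i) A := by
  refine ⟨aeval (fun i => Polynomial.C (u i) + Polynomial.X * Polynomial.C (v i)) A, fun t => ?_⟩
  induction A using MvPolynomial.induction_on with
  | C a => simp
  | add p q hp hq => rw [map_add, Polynomial.eval_add, hp, hq, map_add]
  | mul_X p i hp =>
    rw [map_mul, Polynomial.eval_mul, hp, map_mul]
    simp
    left
    ring

/-- two independent vectors in the orthogonal complement -/
theorem perp (z : Fin 3 → ℂ) (hz : z ≠ 0) : ∃ Y W : Fin 3 → ℂ, dt z Y = 0 ∧ dt z W = 0 ∧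
    ∀ s t : ℂ, (fun i => s * Y i + t * W i) = 0 → s = 0 ∧ t = 0 := by
  have h1 : z 0 ≠ 0 ∨ z 1 ≠ 0 ∨ z 2 ≠ 0 := by
    by_contra h
    push Not at h
    apply hz
    funext i
    fin_cases i
    · exact h.1
    · exact h.2.1
    · exact h.2.2
  rcases h1 with h | h | h
  · refine ⟨![-z 1, z 0, 0], ![-z 2, 0, z 0], ?_, ?_, fun s t hst => ?_⟩
    · simp [dt, Fin.sum_univ_three]; ring
    · simp [dt, Fin.sum_univ_three]; ring
    · have h2 := congrFun hst 1
      have h3 := congrFun hst 2
      simp at h2 h3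
      exact ⟨h2.resolve_right h, h3.resolve_right h⟩
  · refine ⟨![z 1, -z 0, 0], ![0, -z 2, z 1], ?_, ?_, fun s t hst => ?_⟩
    · simp [dt, Fin.sum_univ_three]; ring
    · simp [dt, Fin.sum_univ_three]; ring
    · have h2 := congrFun hst 0
      have h3 := congrFun hst 2
      simp at h2 h3
      exact ⟨h2.resolve_right h, h3.resolve_right h⟩
  · refine ⟨![z 2, 0, -z 0], ![0, z 2, -z 1], ?_, ?_, fun s t hst => ?_⟩
    · simp [dt, Fin.sum_univ_three]; ring
    · simp [dt, Fin.sum_univ_three]; ring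
    · have h2 := congrFun hst 0
      have h3 := congrFun hst 1
      simp at h2 h3
      exact ⟨h2.resolve_right h, h3.resolve_right h⟩

theorem dt_comb (z Y W : Fin 3 → ℂ) (s t : ℂ) :
    dt z (fun i => s * Y i + t * W i) = s * dt z Y + t * dt z W := by
  unfold dt
  rw [Finset.mul_sum, Finset.mul_sum, ← Finset.sum_add_distrib]
  refine Finset.sum_congr rfl fun k _ => ?_
  ring

theorem t_BAS : S_BAS := by
  intro m d p A h
  have hK : ∀ z Y, ∑ j, ev p z j * ev (cp p) Y j = dt z Y * AA A z Y := fun z Y =>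
    H91.FG.KK_eq h.sys z Y
  have hA := H91.FG.t_HOMA 3 m d p A (by norm_num) h.sys h.hom
  refine ⟨hK, fun c z => ?_, fun c Y => ?_, fun c z Y => (hA c z Y).1, fun c z Y => (hA c z Y).2,
    fun z => ?_, fun x hx => ?_, fun z hz => ?_⟩
  · funext j
    simp only [ev, Pi.smul_apply, smul_eq_mul]
    exact H91.FG.eval_smul_of_hom (h.hom j) c z
  · funext j
    simp only [ev, Pi.smul_apply, smul_eq_mul]
    exact H91.FG.eval_smul_of_hom ((h.hom j).map _) c Y
  · funext j
    have h1 := congrArg (eval z) (h.hom j).sum_X_mul_pderiv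
    rw [map_sum] at h1
    simp only [map_mul, eval_X] at h1
    simp only [dp, ev, Pi.smul_apply, smul_eq_mul]
    rw [h1, nsmul_eq_mul, map_mul, map_natCast]
    push_cast
    ring
  · have h1 : ∑ j, x j • p j = 0 := by
      refine MvPolynomial.funext fun z => ?_
      rw [map_sum, map_zero, ← hx z]
      refine Finset.sum_congr rfl fun j _ => ?_
      rw [smul_eval]
      simp only [ev]
      ring
    have h2 := Fintype.linearIndependent_iff.1 h.sys.1 x h1
    funext j
    exact h2 j
  · obtain ⟨Y, W, hY, hW, hYW⟩ := perp z hz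
    obtain ⟨g, hg⟩ := line A (Sum.elim z W) (Sum.elim 0 Y)
    have hg' : ∀ t : ℂ, g.eval t = AA A z (fun i => t * Y i + 1 * W i) := by
      intro t
      rw [hg]
      unfold AA
      congr 2
      funext x
      rcases x with x | x
      · simp
      · simp only [Sum.elim_inr]
        ring
    by_cases hr : ∃ t, g.eval t = 0
    · obtain ⟨t, ht⟩ := hr
      refine ⟨fun i => t * Y i + 1 * W i, fun h0 => ?_, ?_, ?_⟩
      · exact one_ne_zero (hYW t 1 h0).2
      · rw [dt_comb, hY, hW]
        ring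
      · rw [← hg', ht]
    · have hdeg : g.degree = 0 ∨ g = 0 := by
        by_contra hcon
        push Not at hcon
        obtain ⟨t, ht⟩ := IsAlgClosed.exists_root g hcon.1
        exact hr ⟨t, ht⟩
      have hc : ∃ c : ℂ, ∀ t, g.eval t = c := by
        rcases hdeg with h0 | h0
        · rw [Polynomial.eq_C_of_degree_eq_zero h0]
          exact ⟨g.coeff 0, fun t => Polynomial.eval_C⟩
        · exact ⟨0, fun t => by rw [h0, Polynomial.eval_zero]⟩
      obtain ⟨c, hc⟩ := hc
      obtain ⟨k, hk⟩ := line A (Sum.elim z Y) (Sum.elim 0 W)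
      have hk' : ∀ s : ℂ, k.eval s = AA A z (fun i => 1 * Y i + s * W i) := by
        intro t
        rw [hk]
        unfold AA
        congr 2
        funext x
        rcases x with x | x
        · simp
        · simp only [Sum.elim_inr]
          ring
      have hks : ∀ s : ℂ, s ≠ 0 → k.eval s = s ^ d * c := by
        intro s hs
        rw [hk', ← hc s⁻¹, hg', ← (hA s z _).2]
        congr 1
        funext i
        simp only [Pi.smul_apply, smul_eq_mul]
        field_simp
      have hkp : k = Polynomial.X ^ d * Polynomial.C c := by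
        refine Polynomial.eq_of_infinite_eval_eq _ _ ?_
        refine Set.Infinite.mono (s := {s : ℂ | s ≠ 0}) (fun s hs => ?_) ?_
        · show k.eval s = _
          rw [hks s hs]
          simp
          ring
        · exact (Set.finite_singleton (0 : ℂ)).infinite_compl
      refine ⟨fun i => 1 * Y i + 0 * W i, fun h0 => ?_, ?_, ?_⟩
      · exact one_ne_zero (hYW 1 0 h0).1
      · rw [dt_comb, hY, hW]
        ring
      · rw [← hk', hkp]
        have := h.hd
        simp only [Polynomial.eval_mul, Polynomial.eval_pow, Polynomial.eval_X, Polynomial.eval_C]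
        rw [zero_pow (by omega), zero_mul]

end Pool.Agent.H74.FH
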